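import Pool.Agent.MWT.Stmts

/-!
# Row NLC of squad MWT: the number of light letters
-/

set_option autoImplicit false

namespace Pool.Agent.MWT.H81

open Pool.Agent.Helper14_MV Pool.Agent.Helper2_MV Pool.Agent.MVD Pool.Agent.MWT

theorem nlc : NlcStmt := by
  intro m w h1 h2
  have hp : (w.filter (fun a => decide (a % 3 = 1))).Perm
      (((List.range (7 * m)).filter (fun b => decide (3 * b + 1 ∈ w))).map
        (fun b => 3 * b + 1)) := by
    rw [List.perm_ext_iff_of_nodup]
    · intro a
      simp only [List.mem_filter, decide_eq_true_eq, List.mem_map, List.mem_range]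
      constructor
      · rintro ⟨ha, hm⟩
        obtain ⟨b, hb, rfl⟩ := h1 a ha hm
        exact ⟨b, ⟨hb, ha⟩, rfl⟩
      · rintro ⟨b, ⟨hb, hbw⟩, rfl⟩
        exact ⟨hbw, by omega⟩
    · rw [List.nodup_iff_count_le_one]
      intro a
      by_cases ha : a ∈ w.filter (fun a => decide (a % 3 = 1))
      · obtain ⟨haw, ham⟩ := List.mem_filter.1 ha
        obtain ⟨b, hb, rfl⟩ := h1 a haw (by simpa using ham)
        exact (List.filter_sublist.count_le _).trans (h2 b hb)
      · rw [List.count_eq_zero_of_not_mem ha]
        omega
    · apply List.Nodup.map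
      · intro b b' h
        simp only at h
        omega
      · exact List.nodup_range.filter _
  have := hp.length_eq
  rw [List.length_map] at this
  exact this

end Pool.Agent.MWT.H81
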